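import Pool.Agent.H174.GP.StP

open MeasureTheory ProbabilityTheory Finset

namespace Pool.Agent.H975.GP174

open Pool.Agent.H174.GP

/-- replacing one coordinate by an independent one -/
theorem har_mp (j : ℕ) :
    MeasurePreserving (fun p : (ℕ → ℝ) × ℝ => Function.update p.1 j p.2) (PP.prod lap) PP := by
  have hmeas : Measurable (fun p : (ℕ → ℝ) × ℝ => Function.update p.1 j p.2) := by
    refine measurable_pi_lambda _ fun i => ?_
    by_cases h : i = j
    · subst h
      simp only [Function.update_self]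
      exact measurable_snd
    · simp only [Function.update_of_ne h]
      exact (measurable_pi_apply i).comp measurable_fst
  refine ⟨hmeas, ?_⟩
  unfold PP
  refine Measure.eq_infinitePi (fun _ : ℕ => lap) fun s t ht => ?_
  rw [Measure.map_apply hmeas (MeasurableSet.pi s.countable_toSet fun i _ => ht i)]
  classical
  by_cases hj : j ∈ s
  · have h1 : (fun p : (ℕ → ℝ) × ℝ => Function.update p.1 j p.2) ⁻¹' (Set.pi s t) =
        (Set.pi (s.erase j) t) ×ˢ t j := by
      ext p
      simp only [Set.mem_preimage, Set.mem_pi, Set.mem_prod, Finset.mem_coe, Finset.mem_erase]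
      constructor
      · intro h
        refine ⟨fun i hi => ?_, ?_⟩
        · have := h i hi.2
          rwa [Function.update_of_ne hi.1] at this
        · have := h j hj
          rwa [Function.update_self] at this
      · intro h i hi
        by_cases hij : i = j
        · subst hij
          rw [Function.update_self]
          exact h.2
        · rw [Function.update_of_ne hij]
          exact h.1 i ⟨hij, hi⟩
    rw [h1, Measure.prod_prod]
    have h2 := Measure.infinitePi_pi (fun _ : ℕ => lap) (s := s.erase j) (t := t) (fun i _ => ht i)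
    rw [h2, mul_comm]
    exact Finset.mul_prod_erase s (fun i => lap (t i)) hj
  · have h1 : (fun p : (ℕ → ℝ) × ℝ => Function.update p.1 j p.2) ⁻¹' (Set.pi s t) =
        (Set.pi s t) ×ˢ Set.univ := by
      ext p
      simp only [Set.mem_preimage, Set.mem_pi, Set.mem_prod, Finset.mem_coe, Set.mem_univ, and_true]
      refine forall_congr' fun i => forall_congr' fun hi => ?_
      have hij : i ≠ j := by
        rintro rfl
        exact hj hi
      rw [Function.update_of_ne hij]
    rw [h1, Measure.prod_prod, measure_univ, mul_one]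
    exact Measure.infinitePi_pi (fun _ : ℕ => lap) (s := s) (t := t) (fun i _ => ht i)

/-- bounded measurable functions are integrable -/
theorem har_int {α : Type*} [MeasurableSpace α] (μ : Measure α) [IsFiniteMeasure μ] {f : α → ℝ}
    (hf : Measurable f) (h0 : ∀ x, 0 ≤ f x) (h1 : ∀ x, f x ≤ 1) : Integrable f μ := by
  refine Integrable.of_bound hf.aestronglyMeasurable 1 (Filter.Eventually.of_forall fun x => ?_)
  rw [Real.norm_of_nonneg (h0 x)]
  exact h1 x

/-- the inequality in one variable -/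
theorem har_one (u v : ℝ → ℝ) (hu : Monotone u) (hv : Monotone v) (hu0 : ∀ x, 0 ≤ u x)
    (hu1 : ∀ x, u x ≤ 1) (hv0 : ∀ x, 0 ≤ v x) (hv1 : ∀ x, v x ≤ 1) :
    (∫ x, u x ∂lap) * (∫ x, v x ∂lap) ≤ ∫ x, u x * v x ∂lap := by
  have hum := hu.measurable
  have hvm := hv.measurable
  have hui := har_int lap hum hu0 hu1
  have hvi := har_int lap hvm hv0 hv1
  have huvi := har_int lap (hum.mul hvm) (fun x => mul_nonneg (hu0 x) (hv0 x))
    (fun x => mul_le_one₀ (hu1 x) (hv0 x) (hv1 x))
  have h1 : ∀ y, 0 ≤ (∫ x, u x * v x ∂lap) - v y * (∫ x, u x ∂lap) - u y * (∫ x, v x ∂lap) +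
      u y * v y := by
    intro y
    have h2 : (∫ x, u x * v x ∂lap) - v y * (∫ x, u x ∂lap) - u y * (∫ x, v x ∂lap) +
      u y * v y = ∫ x, (u x * v x - v y * u x - u y * v x + u y * v y) ∂lap := by
      have e1 : (∫ x, (u x * v x - v y * u x - u y * v x + u y * v y) ∂lap) =
          (∫ x, (u x * v x - v y * u x - u y * v x) ∂lap) + ∫ _, u y * v y ∂lap :=
        integral_add ((huvi.sub (hui.const_mul _)).sub (hvi.const_mul _)) (integrable_const _)
      have e2 : (∫ x, (u x * v x - v y * u x - u y * v x) ∂lap) =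
          (∫ x, (u x * v x - v y * u x) ∂lap) - ∫ x, u y * v x ∂lap :=
        integral_sub (huvi.sub (hui.const_mul _)) (hvi.const_mul _)
      have e3 : (∫ x, (u x * v x - v y * u x) ∂lap) =
          (∫ x, u x * v x ∂lap) - ∫ x, v y * u x ∂lap :=
        integral_sub huvi (hui.const_mul _)
      rw [e1, e2, e3, integral_const_mul, integral_const_mul, integral_const]
      simp
    rw [h2]
    refine integral_nonneg fun x => ?_
    have h3 : u x * v x - v y * u x - u y * v x + u y * v y = (u x - u y) * (v x - v y) := by ring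
    simp only [h3]
    rcases le_total x y with h | h
    · exact mul_nonneg_of_nonpos_of_nonpos (sub_nonpos.2 (hu h)) (sub_nonpos.2 (hv h))
    · exact mul_nonneg (sub_nonneg.2 (hu h)) (sub_nonneg.2 (hv h))
  have h4 : 0 ≤ ∫ y, ((∫ x, u x * v x ∂lap) - v y * (∫ x, u x ∂lap) - u y * (∫ x, v x ∂lap) +
      u y * v y) ∂lap := integral_nonneg fun y => h1 y
  have e1 : ∀ A U V : ℝ, (∫ y, (A - v y * U - u y * V + u y * v y) ∂lap) =
      A - (∫ x, v x ∂lap) * U - (∫ x, u x ∂lap) * V + ∫ x, u x * v x ∂lap := by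
    intro A U V
    have f1 : (∫ y, (A - v y * U - u y * V + u y * v y) ∂lap) =
        (∫ y, (A - v y * U - u y * V) ∂lap) + ∫ y, u y * v y ∂lap :=
      integral_add (((integrable_const _).sub (hvi.mul_const _)).sub (hui.mul_const _)) huvi
    have f2 : (∫ y, (A - v y * U - u y * V) ∂lap) =
        (∫ y, (A - v y * U) ∂lap) - ∫ y, u y * V ∂lap :=
      integral_sub ((integrable_const _).sub (hvi.mul_const _)) (hui.mul_const _)
    have f3 : (∫ y, (A - v y * U) ∂lap) = (∫ _, A ∂lap) - ∫ y, v y * U ∂lap :=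
      integral_sub (integrable_const _) (hvi.mul_const _)
    rw [f1, f2, f3, integral_const, integral_mul_const, integral_mul_const]
    simp
  rw [e1] at h4
  linarith

/-- Harris for functions -/
theorem har_fun (I : Finset ℕ) : ∀ f g : (ℕ → ℝ) → ℝ, Measurable f → Measurable g →
    (∀ ω, 0 ≤ f ω) → (∀ ω, f ω ≤ 1) → (∀ ω, 0 ≤ g ω) → (∀ ω, g ω ≤ 1) → Monotone f → Monotone g →
    (∀ ω ω', (∀ i ∈ I, ω i = ω' i) → f ω = f ω') → (∀ ω ω', (∀ i ∈ I, ω i = ω' i) → g ω = g ω') →
    (∫ ω, f ω ∂PP) * (∫ ω, g ω ∂PP) ≤ ∫ ω, f ω * g ω ∂PP := by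
  induction I using Finset.induction_on with
  | empty =>
    intro f g hf hg hf0 hf1 hg0 hg1 hfm hgm hfd hgd
    have h1 : ∀ ω, f ω = f 0 := fun ω => hfd ω 0 (by simp)
    have h2 : ∀ ω, g ω = g 0 := fun ω => hgd ω 0 (by simp)
    simp [h1, h2]
  | insert j I hj ih =>
    intro f g hf hg hf0 hf1 hg0 hg1 hfm hgm hfd hgd
    have hmp := har_mp j
    -- the partial integral
    have key : ∀ f : (ℕ → ℝ) → ℝ, Measurable f → (∀ ω, 0 ≤ f ω) → (∀ ω, f ω ≤ 1) →
        (∫ ω, f ω ∂PP) = ∫ ω, (∫ x, f (Function.update ω j x) ∂lap) ∂PP := by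
      intro f hf hf0 hf1
      have h1 : (∫ ω, f ω ∂PP) = ∫ p, f (Function.update p.1 j p.2) ∂(PP.prod lap) := by
        have h2 := integral_map (μ := PP.prod lap) hmp.measurable.aemeasurable
          (f := f) hf.aestronglyMeasurable
        rw [hmp.map_eq] at h2
        exact h2
      rw [h1]
      exact integral_prod (fun p : (ℕ → ℝ) × ℝ => f (Function.update p.1 j p.2))
        (har_int (PP.prod lap) (hf.comp hmp.measurable) (fun p => hf0 _) (fun p => hf1 _))
    have hmeasP : ∀ f : (ℕ → ℝ) → ℝ, Measurable f →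
        Measurable (fun ω => ∫ x, f (Function.update ω j x) ∂lap) := by
      intro f hf
      have h1 : StronglyMeasurable (fun p : (ℕ → ℝ) × ℝ => f (Function.update p.1 j p.2)) :=
        (hf.comp hmp.measurable).stronglyMeasurable
      exact h1.integral_prod_right'.measurable
    have hsec : ∀ ω : ℕ → ℝ, Measurable (fun x : ℝ => Function.update ω j x) := by
      intro ω
      exact hmp.measurable.comp (measurable_const.prodMk measurable_id)
    have hmono : ∀ ω : ℕ → ℝ, Monotone (fun x : ℝ => Function.update ω j x) := by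
      intro ω x y hxy i
      by_cases h : i = j
      · subst h
        simpa using hxy
      · simp [Function.update_of_ne h]
    have hmono2 : ∀ x : ℝ, Monotone (fun ω : ℕ → ℝ => Function.update ω j x) := by
      intro x ω ω' hω i
      by_cases h : i = j
      · subst h
        simp
      · simpa [Function.update_of_ne h] using hω i
    have hintx : ∀ f : (ℕ → ℝ) → ℝ, Measurable f → (∀ ω, 0 ≤ f ω) → (∀ ω, f ω ≤ 1) → ∀ ω,
        Integrable (fun x => f (Function.update ω j x)) lap := fun f hf hf0 hf1 ω =>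
      har_int lap (hf.comp (hsec ω)) (fun x => hf0 _) (fun x => hf1 _)
    have hP0 : ∀ f : (ℕ → ℝ) → ℝ, (∀ ω, 0 ≤ f ω) → ∀ ω,
        0 ≤ ∫ x, f (Function.update ω j x) ∂lap := fun f hf0 ω =>
      integral_nonneg fun x => hf0 _
    have hP1 : ∀ f : (ℕ → ℝ) → ℝ, Measurable f → (∀ ω, 0 ≤ f ω) → (∀ ω, f ω ≤ 1) → ∀ ω,
        (∫ x, f (Function.update ω j x) ∂lap) ≤ 1 := by
      intro f hf hf0 hf1 ω
      calc (∫ x, f (Function.update ω j x) ∂lap) ≤ ∫ _, (1 : ℝ) ∂lap :=
            integral_mono (hintx f hf hf0 hf1 ω) (integrable_const _) (fun x => hf1 _)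
        _ = 1 := by simp
    have hPm : ∀ f : (ℕ → ℝ) → ℝ, Measurable f → (∀ ω, 0 ≤ f ω) → (∀ ω, f ω ≤ 1) → Monotone f →
        Monotone (fun ω => ∫ x, f (Function.update ω j x) ∂lap) := by
      intro f hf hf0 hf1 hfm ω ω' hω
      exact integral_mono (hintx f hf hf0 hf1 ω) (hintx f hf hf0 hf1 ω')
        (fun x => hfm (hmono2 x hω))
    have hPd : ∀ f : (ℕ → ℝ) → ℝ, (∀ ω ω', (∀ i ∈ insert j I, ω i = ω' i) → f ω = f ω') →
        ∀ ω ω', (∀ i ∈ I, ω i = ω' i) → (∫ x, f (Function.update ω j x) ∂lap) =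
          ∫ x, f (Function.update ω' j x) ∂lap := by
      intro f hfd ω ω' hω
      have : ∀ x, f (Function.update ω j x) = f (Function.update ω' j x) := by
        intro x
        refine hfd _ _ fun i hi => ?_
        by_cases h : i = j
        · subst h
          simp
        · rw [Function.update_of_ne h, Function.update_of_ne h]
          exact hω i (Finset.mem_of_mem_insert_of_ne hi h)
      simp only [this]
    have h1 := ih _ _ (hmeasP f hf) (hmeasP g hg) (hP0 f hf0) (hP1 f hf hf0 hf1) (hP0 g hg0)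
      (hP1 g hg hg0 hg1) (hPm f hf hf0 hf1 hfm) (hPm g hg hg0 hg1 hgm) (hPd f hfd) (hPd g hgd)
    have hfg0 : ∀ ω, 0 ≤ f ω * g ω := fun ω => mul_nonneg (hf0 ω) (hg0 ω)
    have hfg1 : ∀ ω, f ω * g ω ≤ 1 := fun ω => mul_le_one₀ (hf1 ω) (hg0 ω) (hg1 ω)
    rw [key f hf hf0 hf1, key g hg hg0 hg1,
      key (fun ω => f ω * g ω) (hf.mul hg) hfg0 hfg1]
    refine h1.trans ?_
    refine integral_mono ?_ ?_ ?_
    · exact har_int PP ((hmeasP f hf).mul (hmeasP g hg))
        (fun ω => mul_nonneg (hP0 f hf0 ω) (hP0 g hg0 ω))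
        (fun ω => mul_le_one₀ (hP1 f hf hf0 hf1 ω) (hP0 g hg0 ω) (hP1 g hg hg0 hg1 ω))
    · exact har_int PP (hmeasP (fun ω => f ω * g ω) (hf.mul hg))
        (hP0 (fun ω => f ω * g ω) hfg0) (hP1 (fun ω => f ω * g ω) (hf.mul hg) hfg0 hfg1)
    · intro ω
      exact har_one (fun x => f (Function.update ω j x)) (fun x => g (Function.update ω j x))
        (hfm.comp (hmono ω)) (hgm.comp (hmono ω)) (fun x => hf0 _) (fun x => hf1 _)
        (fun x => hg0 _) (fun x => hg1 _)

open Classical in
theorem gp_harris : Pool.Agent.H174.GP.S_harris := by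
  intro I F G hF hG hIF hIG hFu hGu
  have ind : ∀ F : Set (ℕ → ℝ), MeasurableSet F → (∫ ω, F.indicator (fun _ => (1 : ℝ)) ω ∂PP) =
      PP.real F := by
    intro F hF
    rw [integral_indicator_const _ hF]
    simp
  have hm : ∀ F : Set (ℕ → ℝ), MeasurableSet F → Measurable (F.indicator (fun _ => (1 : ℝ))) :=
    fun F hF => measurable_const.indicator hF
  have h0 : ∀ (F : Set (ℕ → ℝ)) ω, 0 ≤ F.indicator (fun _ => (1 : ℝ)) ω := fun F ω =>
    Set.indicator_nonneg (fun _ _ => zero_le_one) ω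
  have h1 : ∀ (F : Set (ℕ → ℝ)) ω, F.indicator (fun _ => (1 : ℝ)) ω ≤ 1 := fun F ω =>
    Set.indicator_le_self' (fun _ _ => zero_le_one) ω
  have hmono : ∀ F : Set (ℕ → ℝ), IsUpperSet F → Monotone (F.indicator (fun _ => (1 : ℝ))) := by
    intro F hFu ω ω' hω
    by_cases h : ω ∈ F
    · rw [Set.indicator_of_mem h, Set.indicator_of_mem (hFu hω h)]
    · rw [Set.indicator_of_notMem h]
      exact h0 F ω'
  have hdep : ∀ F : Set (ℕ → ℝ), DepOn I F → ∀ ω ω', (∀ i ∈ I, ω i = ω' i) →
      F.indicator (fun _ => (1 : ℝ)) ω = F.indicator (fun _ => (1 : ℝ)) ω' := by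
    intro F hIF ω ω' hω
    by_cases h : ω ∈ F
    · rw [Set.indicator_of_mem h, Set.indicator_of_mem (hIF ω ω' hω h)]
    · have h' : ω' ∉ F := fun h' => h (hIF ω' ω (fun i hi => (hω i hi).symm) h')
      rw [Set.indicator_of_notMem h, Set.indicator_of_notMem h']
  have h := har_fun I _ _ (hm F hF) (hm G hG) (h0 F) (h1 F) (h0 G) (h1 G) (hmono F hFu)
    (hmono G hGu) (hdep F hIF) (hdep G hIG)
  rw [ind F hF, ind G hG] at h
  have h2 : (fun ω => F.indicator (fun _ => (1 : ℝ)) ω * G.indicator (fun _ => (1 : ℝ)) ω) =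
      (F ∩ G).indicator (fun _ => (1 : ℝ)) := by
    funext ω
    by_cases hωF : ω ∈ F <;> by_cases hωG : ω ∈ G <;> simp [hωF, hωG]
  rw [h2, ind _ (hF.inter hG)] at h
  exact h

end Pool.Agent.H975.GP174
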