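import Pool.Agent.H174.GP.StP

open MeasureTheory ProbabilityTheory Finset

namespace Pool.Agent.H975.GP174

open Pool.Agent.H174.GP

/-- extension by zeros -/
noncomputable def indExt (I : Finset ℕ) (v : I → ℝ) (j : ℕ) : ℝ :=
  if h : j ∈ I then v ⟨j, h⟩ else 0

theorem indExt_measurable (I : Finset ℕ) : Measurable (indExt I) := by
  refine measurable_pi_lambda _ fun j => ?_
  unfold indExt
  by_cases h : j ∈ I
  · simp only [dif_pos h]
    exact measurable_pi_apply _
  · simp only [dif_neg h]
    exact measurable_const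

theorem indExt_apply (I : Finset ℕ) (ω : ℕ → ℝ) {j : ℕ} (h : j ∈ I) :
    indExt I (fun i : I => ω i) j = ω j := by
  unfold indExt
  rw [dif_pos h]

theorem dep_eq {I : Finset ℕ} {F : Set (ℕ → ℝ)} (hF : DepOn I F) :
    F = (fun (ω : ℕ → ℝ) (i : I) => ω i) ⁻¹' ((indExt I) ⁻¹' F) := by
  ext ω
  simp only [Set.mem_preimage]
  constructor
  · intro h
    exact hF ω _ (fun j hj => (indExt_apply I ω hj).symm) h
  · intro h
    exact hF _ ω (fun j hj => indExt_apply I ω hj) h

theorem gp_indep : Pool.Agent.H174.GP.S_indep := by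
  intro I J F G hIJ hF hG hIF hJG
  have h1 : iIndepFun (fun (i : ℕ) (ω : ℕ → ℝ) => ω i) PP := by
    have := iIndepFun_infinitePi (P := fun _ : ℕ => lap) (X := fun (_ : ℕ) (x : ℝ) => x)
      (fun _ => measurable_id)
    exact this
  have h2 := h1.indepFun_finset I J hIJ (fun i => measurable_pi_apply i)
  have h3 := h2.measure_inter_preimage_eq_mul _ _ ((indExt_measurable I) hF)
    ((indExt_measurable J) hG)
  rw [← dep_eq hIF, ← dep_eq hJG] at h3
  simp only [measureReal_def]
  rw [h3, ENNReal.toReal_mul]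

end Pool.Agent.H975.GP174
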